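import Pool.Agent.Run7.h143.RW.T

/-!
# Stationary waves in the plane with independent coefficients are Gaussian (MP_4fa179_mp)

Every Benjamini-Schramm limit of Laplace eigenfunctions of a compact Riemannian manifold of
dimension `d`, rescaled to eigenvalue `1`, is the law of a stationary random field `F` on `ℝ^d` with
smooth samples, `ΔF + F = 0` (analyst's Laplacian) and `E F(0)² ≤ 1`. The theorem is about all such
fields.

(1) The plane, an analogue of Maxwell's theorem. Let `A_n = (∂₁ - i ∂₂)^n F (0)`, `n = 0, 1, 2, …`
(these are the coefficients of the expansion `F (r, φ) = ∑_{n ∈ ℤ} A_n J_n(r) e^{inφ}`, where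
`A_{-n} = (-1)^n conj A_n`). If `A_0, A_1, A_2, …` are independent then `F` is a constant multiple of
Berry's random wave: all linear combinations of values of `F` are normal, and the covariance is
`E F(x) F(y) = E F(0)² ∫ e^{i⟨x - y, ω⟩} dσ(ω)` with the uniform probability measure `σ` on the unit
circle. No moments other than the second are assumed, and nothing is assumed on the laws of the
coefficients. No isotropy is assumed.

(2) All dimensions. If the conditional expectation of `|∇F(0)|²` given `F(0)` is a constant `v`, then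
`F(0)` is normal with mean `0` and variance `v = E F(0)²`. (One may apply this to the linear
combinations of translates and of derivatives of `F`, which are stationary waves, too.)

Proof. (2) Stationarity gives `E k'(F) |∇F|² = E k(F) F` for bounded smooth `k`; with `k = sin (t ·)`,
`cos (t ·)` this is the differential equation of the characteristic function of the normal law.
(1) `W_n = (∂₁ - i ∂₂)^n F` satisfies `(∂₁ - i ∂₂) W_n = W_{n+1}`, `(∂₁ + i ∂₂) W_n = -W_{n-1}`, so the
gradient of `W_n` at `0` is a function of `A_{n-1}` and `A_{n+1}`, hence independent of `A_n`, and (2)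
shows that all real linear functions of `A_n` are normal. The Taylor series of `F` converges in
mean square.
-/

set_option autoImplicit false
open MeasureTheory Filter Topology ProbabilityTheory
open scoped ContDiff ENNReal

namespace Pool.Agent.Results.MP_4fa179_mp.IndependentCoefficients

noncomputable section

/-- the partial derivative `∂_i f` on `ℝ^d` -/
def pd {d : ℕ} (i : Fin d) (f : EuclideanSpace ℝ (Fin d) → ℝ) (y : EuclideanSpace ℝ (Fin d)) : ℝ :=
  fderiv ℝ f y (EuclideanSpace.single i 1)

/-- the Laplacian `∑ ∂_i²` of `ℝ^d` -/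
def laplacian {d : ℕ} (f : EuclideanSpace ℝ (Fin d) → ℝ) (y : EuclideanSpace ℝ (Fin d)) : ℝ :=
  ∑ i, pd i (pd i f) y

/-- the square of the gradient at the origin -/
def gradSq {d : ℕ} (f : EuclideanSpace ℝ (Fin d) → ℝ) : ℝ := ∑ i, pd i f 0 ^ 2

/-- `F` is a stationary random field on `ℝ^d` with smooth samples, `ΔF + F = 0` and `E F(0)² < ∞`.
Stationary means: the shifted field has the same law, in the product of copies of `ℝ` indexed by
the points of `ℝ^d`. -/
structure IsStationaryWave {d : ℕ} {S : Type*} [MeasurableSpace S] (P : Measure S)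
    (F : S → EuclideanSpace ℝ (Fin d) → ℝ) : Prop where
  prob : IsProbabilityMeasure P
  measurable : ∀ y, Measurable fun s => F s y
  smooth : ∀ s, ContDiff ℝ ∞ (F s)
  eigen : ∀ s y, laplacian (F s) y + F s y = 0
  stationary : ∀ x : EuclideanSpace ℝ (Fin d),
    P.map (fun s y => F s (y + x)) = P.map (fun s y => F s y)
  moment : Integrable (fun s => F s 0 ^ 2) P

/-- real and imaginary part of the function `(∂₁ - i ∂₂)^n f` on the plane -/
def power (f : EuclideanSpace ℝ (Fin 2) → ℝ) :
    ℕ → (EuclideanSpace ℝ (Fin 2) → ℝ) × (EuclideanSpace ℝ (Fin 2) → ℝ)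
  | 0 => (f, fun _ => 0)
  | n + 1 => (fun y => pd 0 (power f n).1 y + pd 1 (power f n).2 y,
      fun y => pd 0 (power f n).2 y - pd 1 (power f n).1 y)

/-- real and imaginary part of the coefficient `A_n = (∂₁ - i ∂₂)^n f (0)` -/
def coeff (n : ℕ) (f : EuclideanSpace ℝ (Fin 2) → ℝ) : ℝ × ℝ :=
  ((power f n).1 0, (power f n).2 0)

/-- the covariance function `∫ e^{i⟨z, ω⟩} dσ(ω)` of the isotropic monochromatic random wave in the
plane: the mean of `cos ⟨z, ω⟩` over the unit circle -/
def berry (z : EuclideanSpace ℝ (Fin 2)) : ℝ :=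
  1 / (2 * Real.pi) * ∫ θ in (0 : ℝ)..2 * Real.pi, Real.cos (z 0 * Real.cos θ + z 1 * Real.sin θ)

lemma power_eq (f : EuclideanSpace ℝ (Fin 2) → ℝ) (n : ℕ) :
    power f n = Pool.Agent.Run7.h143.RW.RI f n := by
  induction n with
  | zero => rfl
  | succ n ih =>
    unfold power Pool.Agent.Run7.h143.RW.RI
    rw [ih]
    rfl

/-- **Stationary waves with independent coefficients are Gaussian.** -/
theorem result {S : Type*} [MeasurableSpace S] (P : Measure S) :
    (∀ F : S → EuclideanSpace ℝ (Fin 2) → ℝ, IsStationaryWave P F →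
      iIndepFun (fun n s => coeff n (F s)) P →
      (∀ (m : ℕ) (x : Fin m → EuclideanSpace ℝ (Fin 2)) (c : Fin m → ℝ),
        P.map (fun s => ∑ j, c j * F s (x j)) =
          gaussianReal 0 (∫ s, (∑ j, c j * F s (x j)) ^ 2 ∂P).toNNReal) ∧
      ∀ x y : EuclideanSpace ℝ (Fin 2),
        ∫ s, F s x * F s y ∂P = berry (x - y) * ∫ s, F s 0 ^ 2 ∂P) ∧
    ∀ (d : ℕ) (F : S → EuclideanSpace ℝ (Fin d) → ℝ), IsStationaryWave P F → ∀ v : ℝ,
      P[fun s => gradSq (F s) | MeasurableSpace.comap (fun s => F s 0) inferInstance]
        =ᵐ[P] (fun _ => v) →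
      v = ∫ s, F s 0 ^ 2 ∂P ∧ P.map (fun s => F s 0) = gaussianReal 0 v.toNNReal := by
  constructor
  · intro F hF hi
    have := hF.prob
    have e : (fun n s => coeff n (F s)) = Pool.Agent.Run7.h143.RW.cf F := by
      funext n s
      unfold coeff Pool.Agent.Run7.h143.RW.cf
      rw [power_eq]
    rw [e] at hi
    exact Pool.Agent.Run7.h143.RW.plane hF.measurable hF.smooth hF.eigen hF.stationary hF.moment hi
  · intro d F hF v hv
    have := hF.prob
    exact Pool.Agent.Run7.h143.RW.point hF.measurable hF.smooth hF.eigen hF.stationary hF.moment hv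

end

end Pool.Agent.Results.MP_4fa179_mp.IndependentCoefficients
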