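import Pool.Agent.Run7.h694.FM.G

/-!
# Signs and tails of eigenfunctions in every region of a surface (MP_4fa179_mp)

`X` is a surface with charts of isothermal coordinates, `vol` its area measure; `Chart`,
`IsEigenfunction` and `IsTestFunction` are the definitions of the starting file
`MP_a52643_an.FirstJets`: eigenfunctions with respect to the charts, and finite sums of nonnegative
smooth functions with compact supports in the charts. On a closed surface the test function may be
`Φ = 1`, and `∫_{u > 0} Φ dvol / ∫ Φ dvol` is the probability that the eigenfunction is positive at the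
random root of the decorated manifold of Benjamini and Schramm.

In the metric rescaled by `λ` the operator `D = (λ ρ)^{-1/2} (∂x - i ∂y)` is the derivative
`∂_1 - i ∂_2` in the conformal orthonormal frame; at a unit momentum of direction `α` its symbol is
`sym α = i exp(-iα)`. `HasSemiclassicalMeasure C lam u ν` says that the sequence `u n` has, over the
chart `C`, the semiclassical measure `ν_z(dα) dvol(z)` on the unit cosphere bundle: the mass `u² dvol`
becomes equidistributed, and `ν_z` is the law of the direction of the momentum at `z`. Quantum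
ergodicity (normalised by `∫ u² dvol = vol X`) is the case of the uniform `ν_z`.

The theorem: if the fourth moment over a region is at most `κ` in the limit (`κ = 3` for the random
wave), then the eigenfunctions are positive on at least the proportion `1 / (2 κ)` of the region, and
negative on at least the same proportion; for `t ≥ 1` they are at least `t`, or at most `-t`, on at
most the proportion `1 / (1 + t² + (t² - 1)² / (κ - 1))`; and they are small on at most the
proportion `(κ - 3) / (κ - 2)`.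

Proof. The first three moments over the region tend to those of the normal law (for the third one by
the starting theorem on third moments); so the integrals of quartic polynomials are controlled, and
optimal quartic polynomials below the indicator of the positive numbers and above the indicator of
`[t, ∞)` are explicit. Small values: the starting inequality in the charts, summed over the charts.
-/

set_option autoImplicit false
open MeasureTheory Filter Topology Complex ProbabilityTheory
open scoped ContDiff ENNReal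

namespace Pool.Agent.Results.MP_4fa179_mp.SignsAndTails

noncomputable section

open Pool.Agent.Results.MP_a52643_an.FirstJets (Chart IsEigenfunction IsTestFunction)

/-- smooth functions with compact support in `Ω` -/
def TF (Ω : Set ℂ) (φ : ℂ → ℝ) : Prop := ContDiff ℝ ∞ φ ∧ HasCompactSupport φ ∧ tsupport φ ⊆ Ω

/-- the normalised frame derivative `(λ ρ)^{-1/2} (∂x - i ∂y)` -/
def D (ρ : ℂ → ℝ) (lam : ℝ) (f : ℂ → ℂ) (z : ℂ) : ℂ :=
  ((1 / √(lam * ρ z) : ℝ) : ℂ) * (fderiv ℝ f z 1 - I * fderiv ℝ f z I)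

/-- the symbol of `D` at a unit momentum of direction `α` -/
def sym (α : ℝ) : ℂ := I * Complex.exp (-(α : ℂ) * I)

/-- the probability that two independent directions of law `ν` are parallel (equal or opposite) -/
def parallel (ν : Measure ℝ) : ℝ :=
  (ν.prod ν).real {p | Real.sin (p.1 - p.2) = 0}

variable {X : Type*} [TopologicalSpace X] [MeasurableSpace X] {vol : Measure X}

/-- the sequence `u n` has the semiclassical measure `ν_z(dα) dvol(z)` over the chart `C` -/
def HasSemiclassicalMeasure (C : Chart X vol) (lam : ℕ → ℝ) (u : ℕ → X → ℝ) (ν : Kernel ℂ ℝ) :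
    Prop :=
  ∀ φ, TF C.c.target φ → ∀ k : ℕ, Tendsto (fun n => ∫ z, ((φ z * C.ρ z : ℝ) : ℂ) *
      ((u n (C.c.symm z) : ℂ) * (D C.ρ (lam n))^[k] (fun w => (u n (C.c.symm w) : ℂ)) z)) atTop
      (𝓝 (∫ z, ((φ z * C.ρ z : ℝ) : ℂ) * ∫ α, sym α ^ k ∂(ν z)))

open Pool.Agent.N252.TV Pool.Agent.N252.LL Run7.h694.FM in
/-- **Signs and tails.** Let `u n` be real eigenfunctions with eigenvalues `0 < lam n → ∞` on a surface
of finite area, with bounded fourth moments, which have over every chart a semiclassical measure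
`ν_z(dα) dvol(z)` such that `ν_z` has no atoms modulo `π` for almost all `z` (for instance, a quantum
ergodic sequence). Let `Φ ≥ 0` be a test function with positive integral (`Φ = 1` on a closed surface),
and let the fourth moments of `u n` with respect to `Φ vol` be at most `κ` in the limit. Then `κ ≥ 3`, and
for every `η > 0` and all large `n`:
(1) the `Φ vol`-measures of `{u n > 0}` and of `{u n < 0}` are at least `(1 / (2 κ) - η) ∫ Φ`;
(2) for fixed `t ≥ 1`, the `Φ vol`-measures of `{u n ≥ t}` and of `{u n ≤ -t}` are at most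
`(1 / (1 + t² + (t² - 1)² / (κ - 1)) + η) ∫ Φ`;
(3) for some `s > 0` which does not depend on `n`, the `Φ vol`-measure of `{|u n| ≤ s}` is at most
`((κ - 3) / (κ - 2) + η) ∫ Φ`. -/
theorem result {X : Type*} [TopologicalSpace X] [MeasurableSpace X] [BorelSpace X]
    (vol : Measure X) [IsFiniteMeasure vol] (A : ℕ → Chart X vol) (lam : ℕ → ℝ)
    (hpos : ∀ n, 0 < lam n) (hlam : Tendsto lam atTop atTop) (u : ℕ → X → ℝ)
    (hu : ∀ n, IsEigenfunction A (lam n) (u n))
    (ν : ℕ → Kernel ℂ ℝ) (hν : ∀ i, IsMarkovKernel (ν i))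
    (hsc : ∀ i, HasSemiclassicalMeasure (A i) lam u (ν i))
    (hpar : ∀ i, ∀ᵐ z ∂(volume.restrict (A i).c.target), parallel (ν i z) = 0)
    (B : ℝ) (hB : ∀ n, Integrable (fun x => u n x ^ 4) vol ∧ ∫ x, u n x ^ 4 ∂vol ≤ B)
    (Φ : X → ℝ) (hΦ : IsTestFunction A Φ) (hΦ0 : 0 < ∫ x, Φ x ∂vol) (κ : ℝ)
    (hκ : ∀ δ : ℝ, 0 < δ → ∀ᶠ n in atTop,
      ∫ x, Φ x * u n x ^ 4 ∂vol ≤ (κ + δ) * ∫ x, Φ x ∂vol) :
    3 ≤ κ ∧
    (∀ η : ℝ, 0 < η → ∀ᶠ n in atTop,
      (1 / (2 * κ) - η) * ∫ x, Φ x ∂vol ≤ ∫ x in {x | 0 < u n x}, Φ x ∂vol ∧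
      (1 / (2 * κ) - η) * ∫ x, Φ x ∂vol ≤ ∫ x in {x | u n x < 0}, Φ x ∂vol) ∧
    (∀ t : ℝ, 1 ≤ t → ∀ η : ℝ, 0 < η → ∀ᶠ n in atTop,
      ∫ x in {x | t ≤ u n x}, Φ x ∂vol ≤
        (1 / (1 + t ^ 2 + (t ^ 2 - 1) ^ 2 / (κ - 1)) + η) * ∫ x, Φ x ∂vol ∧
      ∫ x in {x | u n x ≤ -t}, Φ x ∂vol ≤
        (1 / (1 + t ^ 2 + (t ^ 2 - 1) ^ 2 / (κ - 1)) + η) * ∫ x, Φ x ∂vol) ∧
    ∀ η : ℝ, 0 < η → ∃ s : ℝ, 0 < s ∧ ∀ᶠ n in atTop,
      ∫ x in {x | |u n x| ≤ s}, Φ x ∂vol ≤ ((κ - 3) / (κ - 2) + η) * ∫ x, Φ x ∂vol := by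
  obtain ⟨A', hA'⟩ : ∃ A' : ℕ → IsoChart X vol, A' = fun i =>
      (⟨(A i).c, (A i).ρ, (A i).smooth, (A i).pos, (A i).area⟩ : IsoChart X vol) := ⟨_, rfl⟩
  have hA2 : ∀ i, (A' i).c = (A i).c ∧ (A' i).ρ = (A i).ρ := fun i => by rw [hA']; exact ⟨rfl, rfl⟩
  have hu2 : ∀ n, IsEigen A' (lam n) (u n) := by
    intro n
    refine ⟨(hu n).1, fun i => ?_, fun i z hz => ?_⟩
    · rw [(hA2 i).1]; exact ((hu n).2 i).1
    · rw [(hA2 i).1] at hz ⊢
      rw [(hA2 i).2]
      have h1 := ((hu n).2 i).2 z hz
      have h2 := (A i).pos z hz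
      rw [div_eq_iff h2.ne'] at h1
      have e : Pool.Agent.N252.TV.lapl (u n ∘ (A i).c.symm) z =
        Pool.Agent.Results.MP_a52643_an.FirstJets.lapl (u n ∘ (A i).c.symm) z := rfl
      rw [e, h1]
      show - lam n * u n ((A i).c.symm z) * (A i).ρ z +
        lam n * ((A i).ρ z * u n ((A i).c.symm z)) = 0
      ring
  obtain ⟨s, φ, hφ, hs⟩ := id hΦ
  have T : IsTe A' s φ Φ := by
    refine ⟨fun i hi => ⟨(hφ i hi).1, (hφ i hi).2.1, ?_⟩, fun i hi => (hφ i hi).2.2.2, fun x => ?_⟩
    · rw [(hA2 i).1]; exact (hφ i hi).2.2.1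
    · rw [hs x]
      refine Finset.sum_congr rfl fun i _ => ?_
      unfold pc
      rw [(hA2 i).1]
  have H : Hy A' lam u ν B := by
    refine ⟨hpos, hlam, hu2, hν, fun i => ?_, fun i => ?_, hB⟩
    · intro φ hφ k
      have hφ' : TF (A i).c.target φ := by rw [← (hA2 i).1]; exact hφ
      have h := hsc i φ hφ' k
      rw [hA']
      exact h
    · rw [(hA2 i).1]; exact hpar i
  obtain ⟨k3, small⟩ := H.small_mass T hΦ0 hκ
  exact ⟨k3, fun η hη => H.signs T hΦ0 (by linarith) hκ hη,
    fun t ht η hη => H.tails T hΦ0 (by linarith) hκ ht hη, small⟩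

end

end Pool.Agent.Results.MP_4fa179_mp.SignsAndTails
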